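import Mathlib

/-!
# Proper colourings, rainbow copies, and a parity lemma (MP_1c393c)
-/

namespace Q130.NM

open SimpleGraph Finset

/-- `c` is a proper edge colouring of `G` (only the values on edges matter). -/
def Proper {V : Type} (G : SimpleGraph V) (c : Sym2 V → ℕ) : Prop :=
  ∀ e ∈ G.edgeSet, ∀ f ∈ G.edgeSet, e ≠ f → (∃ v, v ∈ e ∧ v ∈ f) → c e ≠ c f

/-- The colouring `c` of `G` uses exactly `m` colours. -/
def Uses {V : Type} (G : SimpleGraph V) (c : Sym2 V → ℕ) (m : ℕ) : Prop :=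
  (c '' G.edgeSet).ncard = m ∧ (c '' G.edgeSet).Finite

/-- `k` is the chromatic index of `G`: the least number of colours used by a proper edge
colouring. -/
def IsChromaticIndex {V : Type} (G : SimpleGraph V) (k : ℕ) : Prop :=
  IsLeast {m : ℕ | ∃ c, Proper G c ∧ Uses G c m} k

/-- The colouring `c` of `G` has a rainbow copy of `H`: a subgraph isomorphic to `H` whose edges
have pairwise distinct colours. -/
def HasRainbow {V W : Type} (G : SimpleGraph V) (H : SimpleGraph W) (c : Sym2 V → ℕ) : Prop :=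
  ∃ φ : W → V, Function.Injective φ ∧ (∀ a b, H.Adj a b → G.Adj (φ a) (φ b)) ∧
    ∀ e ∈ H.edgeSet, ∀ f ∈ H.edgeSet, e ≠ f → c (e.map φ) ≠ c (f.map φ)

/-- `G` is a non-monotone witness for `H`. -/
def IsWitness {V W : Type} (G : SimpleGraph V) (H : SimpleGraph W) : Prop :=
  ∃ k, IsChromaticIndex G k ∧
    (∀ c, Proper G c → Uses G c k → HasRainbow G H c) ∧
    ∃ c, Proper G c ∧ ¬ HasRainbow G H c

lemma Proper.ne {V : Type} {G : SimpleGraph V} {c : Sym2 V → ℕ} (h : Proper G c) {u w w' : V}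
    (hw : G.Adj u w) (hw' : G.Adj u w') (hne : w ≠ w') : c s(u, w) ≠ c s(u, w') := by
  refine h _ hw _ hw' ?_ ⟨u, by simp, by simp⟩
  intro heq
  rw [Sym2.eq_iff] at heq
  rcases heq with h1 | h1
  · exact hne h1.2
  · exact hne (h1.2.trans h1.1)

/-- A vertex with `D` neighbours sees every colour of a colouring with `D` colours. -/
lemma sees {V : Type} {G : SimpleGraph V} {c : Sym2 V → ℕ} (h : Proper G c) {D : ℕ}
    (hu : Uses G c D) {u : V} (nb : Fin D → V) (hnb : Function.Injective nb)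
    (hadj : ∀ j, G.Adj u (nb j)) {κ : ℕ} (hκ : κ ∈ c '' G.edgeSet) :
    ∃ j, c s(u, nb j) = κ := by
  have hinj : Function.Injective fun j => c s(u, nb j) := by
    intro i j hij
    by_contra hne
    exact h.ne (hadj i) (hadj j) (fun h => hne (hnb h)) hij
  have hsub : Set.range (fun j => c s(u, nb j)) ⊆ c '' G.edgeSet := by
    rintro _ ⟨j, rfl⟩
    exact ⟨_, hadj j, rfl⟩
  have hcard : (Set.range (fun j => c s(u, nb j))).ncard = D := by
    rw [← Set.image_univ, Set.ncard_image_of_injective _ hinj, Set.ncard_univ]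
    simp
  have := Set.eq_of_subset_of_ncard_le hsub (by rw [hcard, hu.1]) hu.2
  rw [← this] at hκ
  obtain ⟨j, hj⟩ := hκ
  exact ⟨j, hj⟩

/-- The parity lemma. -/
lemma parity {V : Type} [Fintype V] [DecidableEq V] {G : SimpleGraph V} {c : Sym2 V → ℕ}
    (h : Proper G c) (X : Finset V) (hX : Even X.card) (κ : ℕ)
    (hsee : ∀ x ∈ X, ∃ w, G.Adj x w ∧ c s(x, w) = κ) :
    Even {x ∈ (X : Set V) | ∃ w, w ∉ X ∧ G.Adj x w ∧ c s(x, w) = κ}.ncard := by
  classical
  let K : SimpleGraph V :=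
    { Adj := fun x y => G.Adj x y ∧ c s(x, y) = κ ∧ x ∈ X ∧ y ∈ X
      symm := ⟨fun x y hxy => ⟨hxy.1.symm, by rw [Sym2.eq_swap]; exact hxy.2.1, hxy.2.2.2, hxy.2.2.1⟩⟩
      loopless := ⟨fun x hxy => G.loopless.irrefl _ hxy.1⟩ }
  have heven := K.even_card_odd_degree_vertices
  have hle : ∀ x, K.degree x ≤ 1 := by
    intro x
    rw [← K.card_neighborFinset_eq_degree, Finset.card_le_one]
    intro a ha b hb
    rw [mem_neighborFinset] at ha hb
    by_contra hne
    exact h.ne ha.1 hb.1 hne (ha.2.1.trans hb.2.1.symm)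
  have hset : (univ.filter fun v => Odd (K.degree v)) =
      X \ (X.filter fun x => ∃ w, w ∉ X ∧ G.Adj x w ∧ c s(x, w) = κ) := by
    ext x
    simp only [Finset.mem_filter, Finset.mem_univ, true_and, Finset.mem_sdiff, not_and]
    constructor
    · intro hodd
      have hpos : 0 < K.degree x := hodd.pos
      rw [K.degree_pos_iff_exists_adj] at hpos
      obtain ⟨w, hw⟩ := hpos
      refine ⟨hw.2.2.1, fun _ => ?_⟩
      rintro ⟨w', hw', hadj, hc⟩
      have : w' ≠ w := by rintro rfl; exact hw' hw.2.2.2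
      exact h.ne hadj hw.1 this (hc.trans hw.2.1.symm)
    · rintro ⟨hxX, hno⟩
      obtain ⟨w, hw, hc⟩ := hsee x hxX
      have hwX : w ∈ X := by
        by_contra hwX
        exact hno hxX ⟨w, hwX, hw, hc⟩
      have hpos : 0 < K.degree x := by
        rw [K.degree_pos_iff_exists_adj]
        exact ⟨w, hw, hc, hxX, hwX⟩
      have : K.degree x = 1 := le_antisymm (hle x) hpos
      rw [this]
      exact odd_one
  rw [hset, Finset.card_sdiff_of_subset (Finset.filter_subset _ _)] at heven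
  have h1 : {x ∈ (X : Set V) | ∃ w, w ∉ X ∧ G.Adj x w ∧ c s(x, w) = κ} =
      ((X.filter fun x => ∃ w, w ∉ X ∧ G.Adj x w ∧ c s(x, w) = κ : Finset V) : Set V) := by
    ext x; simp
  rw [h1, Set.ncard_coe_finset]
  have h2 := Finset.card_filter_le X (fun x => ∃ w, w ∉ X ∧ G.Adj x w ∧ c s(x, w) = κ)
  have h3 := (Nat.even_sub h2).1 heven
  exact h3.1 hX

end Q130.NM
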