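import Pool.Agent.Q130.NM.Wit

/-!
# The witness graphs: proofs (MP_1c393c)
-/

namespace Q130.NM

open SimpleGraph Finset

variable {t p : ℕ} [Fact p.Prime]

omit [Fact p.Prime] in
lemma adj_iff {a b : Vx t p} : (wit t p).Adj a b ↔ A a b := Iff.rfl

omit [Fact p.Prime] in
lemma fin01 : (0 : Fin (t + 4)) ≠ 1 := by
  intro h
  have := congrArg Fin.val h
  rw [val_one'] at this
  simp at this

/-- The neighbours of a point. -/
def nbP (i : Bool) (x : Fin (t + 4)) (y : ZMod p) (m : Fin (t + 4)) : Vx t p :=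
  if x = 0 ∧ y = 0 ∧ m = 0 then .v1 else if x = 0 ∧ y = 0 ∧ m = 1 then .v3
    else .ln i m (y - ((m : ℕ) : ZMod p) * ((x : ℕ) : ZMod p))

/-- The neighbours of a line. -/
def nbL (i : Bool) (m : Fin (t + 4)) (b : ZMod p) (x : Fin (t + 4)) : Vx t p :=
  if x = 0 ∧ b = 0 ∧ m = 0 then .v1 else if x = 0 ∧ b = 0 ∧ m = 1 then .v3
    else .pt i x (((m : ℕ) : ZMod p) * ((x : ℕ) : ZMod p) + b)

/-- The neighbours of `v1`. -/
def nbV (k : Fin (t + 4)) : Vx t p :=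
  if h : 4 ≤ (k : ℕ) then .leaf ⟨k - 4, by omega⟩ else if (k : ℕ) = 0 then .pt false 0 0
    else if (k : ℕ) = 1 then .pt true 0 0 else if (k : ℕ) = 2 then .ln false 0 0
    else .ln true 0 0

lemma nbP_adj (i : Bool) (x : Fin (t + 4)) (y : ZMod p) (m : Fin (t + 4)) :
    A (.pt i x y) (nbP i x y m) := by
  unfold nbP
  split_ifs with h1 h2
  · exact ⟨h1.1, h1.2.1⟩
  · exact ⟨h2.1, h2.2.1⟩
  · refine ⟨rfl, by ring, ?_⟩
    rintro ⟨rfl, hb, hm⟩
    rw [cast_zero', mul_zero, sub_zero] at hb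
    rcases hm with hm | hm
    · exact h1 ⟨rfl, hb, hm⟩
    · exact h2 ⟨rfl, hb, hm⟩

lemma nbP_inj (i : Bool) (x : Fin (t + 4)) (y : ZMod p) :
    Function.Injective (nbP i x y : Fin (t + 4) → Vx t p) := by
  intro m m' h
  unfold nbP at h
  split_ifs at h with h1 h2 h3 h4 h5 h6 h7 h8
  · rw [h1.2.2, h2.2.2]
  · rw [h4.2.2, h6.2.2]
  · injection h

lemma nbL_adj (i : Bool) (m : Fin (t + 4)) (b : ZMod p) (x : Fin (t + 4)) :
    A (.ln i m b) (nbL i m b x) := by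
  unfold nbL
  split_ifs with h1 h2
  · exact ⟨h1.2.2, h1.2.1⟩
  · exact ⟨h2.2.2, h2.2.1⟩
  · refine ⟨rfl, rfl, ?_⟩
    rintro ⟨hx, hb, hm⟩
    rcases hm with hm | hm
    · exact h1 ⟨hx, hb, hm⟩
    · exact h2 ⟨hx, hb, hm⟩

lemma nbL_inj (i : Bool) (m : Fin (t + 4)) (b : ZMod p) :
    Function.Injective (nbL i m b : Fin (t + 4) → Vx t p) := by
  intro x x' h
  unfold nbL at h
  split_ifs at h with h1 h2 h3 h4 h5 h6 h7 h8
  · rw [h1.1, h2.1]
  · rw [h4.1, h6.1]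
  · injection h

lemma nbV_adj (k : Fin (t + 4)) : A (.v1 : Vx t p) (nbV k) := by
  unfold nbV
  split_ifs <;> simp [A]

lemma nbV_inj : Function.Injective (nbV : Fin (t + 4) → Vx t p) := by
  intro k k' h
  unfold nbV at h
  split_ifs at h <;> (try exact Fin.ext (by omega)) <;>
    (try (injection h with h; simp only [Fin.mk.injEq] at h; exact Fin.ext (by omega))) <;>
    (try simp at h)

/-- The colouring of the witness with `t + 4` colours. -/
noncomputable def colS (t p : ℕ) : Sym2 (Vx t p) → ℕ :=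
  Sym2.lift ⟨fun a b => (col a b : ℕ), fun a b => congrArg Fin.val (col_symm a b)⟩

omit [Fact p.Prime] in
lemma colS_mk (a b : Vx t p) : colS t p s(a, b) = (col a b : ℕ) := rfl

lemma colS_proper : Proper (wit t p) (colS t p) := by
  intro e he f hf hne ⟨v, hve, hvf⟩
  obtain ⟨w, rfl⟩ := Sym2.mem_iff_exists.1 hve
  obtain ⟨w', rfl⟩ := Sym2.mem_iff_exists.1 hvf
  rw [colS_mk, colS_mk]
  intro h
  exact col_proper v w w' he hf (fun h => hne (by rw [h])) (Fin.ext h)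

/-- A vertex with `D` neighbours forces `D` colours. -/
lemma le_uses {V : Type} {G : SimpleGraph V} {c : Sym2 V → ℕ} (h : Proper G c) {D m : ℕ}
    (hu : Uses G c m) {u : V} (nb : Fin D → V) (hnb : Function.Injective nb)
    (hadj : ∀ j, G.Adj u (nb j)) : D ≤ m := by
  have hinj : Function.Injective fun j => c s(u, nb j) := by
    intro i j hij
    by_contra hne
    exact h.ne (hadj i) (hadj j) (fun h => hne (hnb h)) hij
  have hsub : Set.range (fun j => c s(u, nb j)) ⊆ c '' G.edgeSet := by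
    rintro _ ⟨j, rfl⟩
    exact ⟨_, hadj j, rfl⟩
  have hcard : (Set.range (fun j => c s(u, nb j))).ncard = D := by
    rw [← Set.image_univ, Set.ncard_image_of_injective _ hinj, Set.ncard_univ]
    simp
  rw [← hcard, ← hu.1]
  exact Set.ncard_le_ncard hsub hu.2

lemma chromaticIndex : IsChromaticIndex (wit t p) (t + 4) := by
  have hsub : (colS t p) '' (wit t p).edgeSet ⊆ Set.Iio (t + 4) := by
    rintro _ ⟨e, _, rfl⟩
    induction e with
    | _ a b => exact (col a b).2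
  have hfin : ((colS t p) '' (wit t p).edgeSet).Finite := (Set.finite_Iio _).subset hsub
  constructor
  · refine ⟨colS t p, colS_proper, le_antisymm ?_ ?_, hfin⟩
    · calc _ ≤ (Set.Iio (t + 4)).ncard := Set.ncard_le_ncard hsub (Set.finite_Iio _)
        _ = t + 4 := by rw [← Nat.card_coe_set_eq]; simp
    · exact le_uses colS_proper (m := _) ⟨rfl, hfin⟩ nbV nbV_inj nbV_adj
  · rintro m ⟨c, hc, hu⟩
    exact le_uses hc hu nbV nbV_inj nbV_adj

section parity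

/-- The vertices of a copy. -/
def copy (i : Bool) : Bool × Fin (t + 4) × ZMod p → Vx t p := fun q =>
  if q.1 then .pt i q.2.1 q.2.2 else .ln i q.2.1 q.2.2

omit [Fact p.Prime] in
lemma copy_inj (i : Bool) : Function.Injective (copy i : _ → Vx t p) := by
  rintro ⟨a, x, y⟩ ⟨b, x', y'⟩ h
  cases a <;> cases b <;> simp_all [copy]

/-- The parity argument in one copy. -/
lemma copy_parity {c : Sym2 (Vx t p) → ℕ} (hc : Proper (wit t p) c)
    (hu : Uses (wit t p) c (t + 4)) (i : Bool) (κ : ℕ) (hκ : κ ∈ c '' (wit t p).edgeSet) :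
    Even {x : Vx t p | (x = .pt i 0 0 ∧ (c s(x, .v1) = κ ∨ c s(x, .v3) = κ)) ∨
      (x = .ln i 0 0 ∧ c s(x, .v1) = κ) ∨ (x = .ln i 1 0 ∧ c s(x, .v3) = κ)}.ncard := by
  classical
  have : Fintype (Vx t p) := Fintype.ofFinite _
  let X : Finset (Vx t p) := univ.image (copy i)
  have hX : Even X.card := by
    rw [Finset.card_image_of_injective _ (copy_inj i), Finset.card_univ, Fintype.card_prod]
    simp
  have hmem : ∀ v, v ∈ X ↔ (∃ x y, v = .pt i x y) ∨ ∃ x y, v = .ln i x y := by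
    intro v
    simp only [X, Finset.mem_image, Finset.mem_univ, true_and]
    constructor
    · rintro ⟨⟨a, x, y⟩, rfl⟩
      cases a
      · exact Or.inr ⟨x, y, rfl⟩
      · exact Or.inl ⟨x, y, rfl⟩
    · rintro (⟨x, y, rfl⟩ | ⟨x, y, rfl⟩)
      · exact ⟨(true, x, y), rfl⟩
      · exact ⟨(false, x, y), rfl⟩
  have hsee : ∀ x ∈ X, ∃ w, (wit t p).Adj x w ∧ c s(x, w) = κ := by
    intro v hv
    rcases (hmem v).1 hv with ⟨x, y, rfl⟩ | ⟨x, y, rfl⟩
    · obtain ⟨j, hj⟩ := sees hc hu (nbP i x y) (nbP_inj i x y) (nbP_adj i x y) hκ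
      exact ⟨_, nbP_adj i x y j, hj⟩
    · obtain ⟨j, hj⟩ := sees hc hu (nbL i x y) (nbL_inj i x y) (nbL_adj i x y) hκ
      exact ⟨_, nbL_adj i x y j, hj⟩
  have hpar := parity hc X hX κ hsee
  convert hpar using 2
  ext v
  simp only [Set.mem_ofPred_eq, Finset.mem_coe]
  constructor
  · rintro (⟨rfl, h | h⟩ | ⟨rfl, h⟩ | ⟨rfl, h⟩)
    · exact ⟨(hmem _).2 (Or.inl ⟨_, _, rfl⟩), .v1, by simp [hmem], ⟨rfl, rfl⟩, h⟩
    · exact ⟨(hmem _).2 (Or.inl ⟨_, _, rfl⟩), .v3, by simp [hmem], ⟨rfl, rfl⟩, h⟩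
    · exact ⟨(hmem _).2 (Or.inr ⟨_, _, rfl⟩), .v1, by simp [hmem], ⟨rfl, rfl⟩, h⟩
    · exact ⟨(hmem _).2 (Or.inr ⟨_, _, rfl⟩), .v3, by simp [hmem], ⟨rfl, rfl⟩, h⟩
  · rintro ⟨hv, w, hw, hadj, hcw⟩
    rw [adj_iff] at hadj
    rcases (hmem v).1 hv with ⟨x, y, rfl⟩ | ⟨x, y, rfl⟩
    · cases w with
      | v1 => obtain ⟨rfl, rfl⟩ := hadj; exact Or.inl ⟨rfl, Or.inl hcw⟩
      | v3 => obtain ⟨rfl, rfl⟩ := hadj; exact Or.inl ⟨rfl, Or.inr hcw⟩
      | leaf j => exact hadj.elim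
      | pt j m b => exact hadj.elim
      | ln j m b =>
        obtain ⟨rfl, -⟩ := hadj
        exact absurd ((hmem _).2 (Or.inr ⟨_, _, rfl⟩)) hw
    · cases w with
      | v1 => obtain ⟨rfl, rfl⟩ := hadj; exact Or.inr (Or.inl ⟨rfl, hcw⟩)
      | v3 => obtain ⟨rfl, rfl⟩ := hadj; exact Or.inr (Or.inr ⟨rfl, hcw⟩)
      | leaf j => exact hadj.elim
      | ln j m b => exact hadj.elim
      | pt j m b =>
        obtain ⟨rfl, -⟩ := hadj
        exact absurd ((hmem _).2 (Or.inl ⟨_, _, rfl⟩)) hw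

lemma forced {c : Sym2 (Vx t p) → ℕ} (hc : Proper (wit t p) c)
    (hu : Uses (wit t p) c (t + 4)) (i : Bool) :
    c s(.v3, .pt i 0 0) = c s(.v1, .ln i 0 0) := by
  have e1 : (wit t p).Adj .v3 (.pt i 0 0) := ⟨rfl, rfl⟩
  have e2 : (wit t p).Adj .v3 (.ln i 1 0) := ⟨rfl, rfl⟩
  have hpar := copy_parity hc hu i (c s(.v3, .pt i 0 0)) ⟨s(.v3, .pt i 0 0), e1, rfl⟩
  by_contra hne
  have hset : {x : Vx t p | (x = .pt i 0 0 ∧ (c s(x, .v1) = c s(.v3, .pt i 0 0) ∨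
      c s(x, .v3) = c s(.v3, .pt i 0 0))) ∨
      (x = .ln i 0 0 ∧ c s(x, .v1) = c s(.v3, .pt i 0 0)) ∨
      (x = .ln i 1 0 ∧ c s(x, .v3) = c s(.v3, .pt i 0 0))} = {.pt i 0 0} := by
    ext v
    simp only [Set.mem_ofPred_eq, Set.mem_singleton_iff]
    constructor
    · rintro (⟨rfl, _⟩ | ⟨rfl, h⟩ | ⟨rfl, h⟩)
      · rfl
      · exact absurd (by rw [← h, Sym2.eq_swap]) hne
      · exfalso
        rw [Sym2.eq_swap] at h
        exact hc.ne e2 e1 (by simp) h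
    · rintro rfl
      exact Or.inl ⟨rfl, Or.inr (by rw [Sym2.eq_swap])⟩
  rw [hset, Set.ncard_singleton] at hpar
  exact absurd hpar (by decide)

end parity

/-- The vertices of `H_t`: a 4-cycle `a b c d` and `t` leaves at `a`. -/
inductive HV (t : ℕ) : Type
  | a : HV t
  | b : HV t
  | c : HV t
  | d : HV t
  | leaf (j : Fin t) : HV t
  deriving DecidableEq

/-- Adjacency of `H_t`. -/
def HA {t : ℕ} : HV t → HV t → Prop
  | .a, .b => True
  | .b, .a => True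
  | .b, .c => True
  | .c, .b => True
  | .c, .d => True
  | .d, .c => True
  | .d, .a => True
  | .a, .d => True
  | .a, .leaf _ => True
  | .leaf _, .a => True
  | _, _ => False

/-- The graph `H_t`: a 4-cycle with `t` pendant edges at one of its vertices. -/
def HG (t : ℕ) : SimpleGraph (HV t) where
  Adj := HA
  symm := ⟨by intro x y h; cases x <;> cases y <;> simp_all [HA]⟩
  loopless := ⟨by intro x h; cases x <;> simp_all [HA]⟩

lemma edge_cases {e : Sym2 (HV t)} (he : e ∈ (HG t).edgeSet) :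
    e = s(.a, .b) ∨ e = s(.b, .c) ∨ e = s(.c, .d) ∨ e = s(.d, .a) ∨ ∃ j, e = s(.a, .leaf j) := by
  induction e with
  | _ x y =>
    have h : HA x y := he
    cases x <;> cases y <;> simp_all [HA]

/-- The embedding of `H_t` in the witness. -/
def emb : HV t → Vx t p
  | .a => .v1
  | .b => .pt false 0 0
  | .c => .v3
  | .d => .pt true 0 0
  | .leaf j => .leaf j

lemma rainbow {c : Sym2 (Vx t p) → ℕ} (hc : Proper (wit t p) c)
    (hu : Uses (wit t p) c (t + 4)) : HasRainbow (wit t p) (HG t) c := by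
  refine ⟨emb, ?_, ?_, ?_⟩
  · intro x y h
    cases x <;> cases y <;> simp_all [emb]
  · intro x y h
    have h' : HA x y := h
    show A (emb x) (emb y)
    cases x <;> cases y <;> simp_all [emb, HA, A]
  · have key : ∀ e ∈ (HG t).edgeSet, ∃ w, A (.v1 : Vx t p) w ∧ c (e.map emb) = c s(.v1, w) ∧
        ((e = s(.a, .b) ∧ w = .pt false 0 0) ∨ (e = s(.b, .c) ∧ w = .ln false 0 0) ∨
          (e = s(.c, .d) ∧ w = .ln true 0 0) ∨ (e = s(.d, .a) ∧ w = .pt true 0 0) ∨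
          ∃ j, e = s(.a, .leaf j) ∧ w = .leaf j) := by
      intro e he
      rcases edge_cases he with rfl | rfl | rfl | rfl | ⟨j, rfl⟩
      · exact ⟨.pt false 0 0, ⟨rfl, rfl⟩, rfl, Or.inl ⟨rfl, rfl⟩⟩
      · refine ⟨.ln false 0 0, ⟨rfl, rfl⟩, ?_, Or.inr (Or.inl ⟨rfl, rfl⟩)⟩
        rw [← forced hc hu false, Sym2.eq_swap]
        rfl
      · refine ⟨.ln true 0 0, ⟨rfl, rfl⟩, ?_, Or.inr (Or.inr (Or.inl ⟨rfl, rfl⟩))⟩
        rw [← forced hc hu true]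
        rfl
      · refine ⟨.pt true 0 0, ⟨rfl, rfl⟩, ?_, Or.inr (Or.inr (Or.inr (Or.inl ⟨rfl, rfl⟩)))⟩
        rw [Sym2.eq_swap]
        rfl
      · exact ⟨.leaf j, trivial, rfl, Or.inr (Or.inr (Or.inr (Or.inr ⟨j, rfl, rfl⟩)))⟩
    intro e he f hf hne
    obtain ⟨w, hw, hcw, h1⟩ := key e he
    obtain ⟨w', hw', hcw', h2⟩ := key f hf
    rw [hcw, hcw']
    refine hc.ne hw hw' ?_
    rintro rfl
    apply hne
    rcases h1 with ⟨rfl, h1⟩ | ⟨rfl, h1⟩ | ⟨rfl, h1⟩ | ⟨rfl, h1⟩ | ⟨j, rfl, h1⟩ <;>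
    rcases h2 with ⟨rfl, h2⟩ | ⟨rfl, h2⟩ | ⟨rfl, h2⟩ | ⟨rfl, h2⟩ | ⟨k, rfl, h2⟩ <;>
    simp_all

/-- A closed walk of length four on four vertices. -/
def Q (x1 x2 x3 x4 : Vx t p) : Prop :=
  A x1 x2 ∧ A x2 x3 ∧ A x3 x4 ∧ A x4 x1 ∧ x1 ≠ x3 ∧ x2 ≠ x4

lemma Q.rot {x1 x2 x3 x4 : Vx t p} (h : Q x1 x2 x3 x4) : Q x2 x3 x4 x1 :=
  ⟨h.2.1, h.2.2.1, h.2.2.2.1, h.1, h.2.2.2.2.2, h.2.2.2.2.1.symm⟩

lemma Q_v1 {x2 x3 x4 : Vx t p} (h : Q .v1 x2 x3 x4) :
    x3 = .v3 ∧ ((x2 = .pt false 0 0 ∧ x4 = .pt true 0 0) ∨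
      (x2 = .pt true 0 0 ∧ x4 = .pt false 0 0)) := by
  have h01 := @fin01 t
  obtain ⟨h12, h23, h34, h41, h13, h24⟩ := h
  cases x2 <;> cases x3 <;> cases x4 <;> simp only [A] at h12 h23 h34 h41
  case pt.v3.pt i x y j x' y' =>
    refine ⟨rfl, ?_⟩
    obtain ⟨rfl, rfl⟩ := h12
    obtain ⟨rfl, rfl⟩ := h34
    cases i <;> cases j <;> simp_all
  all_goals first
    | (exfalso; exact h13 rfl)
    | (exfalso; simp_all; done)

lemma Q_v3 {x2 x3 x4 : Vx t p} (h : Q .v3 x2 x3 x4) : x3 = .v1 := by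
  have h01 := @fin01 t
  obtain ⟨h12, h23, h34, h41, h13, h24⟩ := h
  cases x2 <;> cases x3 <;> cases x4 <;> simp only [A] at h12 h23 h34 h41
  all_goals first
    | rfl
    | (exfalso; exact h13 rfl)
    | (exfalso; simp_all; done)

lemma girth (hp : t + 4 ≤ p) {x x' m m' : Fin (t + 4)} {y y' b b' : ZMod p}
    (h1 : inc x y m b) (h2 : inc x y m' b') (h3 : inc x' y' m b) (h4 : inc x' y' m' b') :
    (x = x' ∧ y = y') ∨ (m = m' ∧ b = b') := by
  have e : (((m : ℕ) : ZMod p) - ((m' : ℕ) : ZMod p)) *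
      (((x : ℕ) : ZMod p) - ((x' : ℕ) : ZMod p)) = 0 := by
    linear_combination (-1 : ZMod p) * h1.1 + h2.1 + h3.1 - h4.1
  rcases mul_eq_zero.1 e with h | h
  · right
    have hm : m = m' := cast_inj hp (sub_eq_zero.1 h)
    refine ⟨hm, ?_⟩
    have := h1.1.symm.trans h2.1
    rw [hm] at this
    exact add_left_cancel this
  · left
    have hx : x = x' := cast_inj hp (sub_eq_zero.1 h)
    refine ⟨hx, ?_⟩
    rw [h1.1, h3.1, hx]

lemma Q_all (hp : t + 4 ≤ p) {x1 x2 x3 x4 : Vx t p} (h : Q x1 x2 x3 x4) :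
    (x1 = .v1 ∨ x2 = .v1 ∨ x3 = .v1 ∨ x4 = .v1) := by
  by_contra hcon
  push Not at hcon
  obtain ⟨c1, c2, c3, c4⟩ := hcon
  have d1 : x1 ≠ .v3 := by rintro rfl; exact c3 (Q_v3 h)
  have d2 : x2 ≠ .v3 := by rintro rfl; exact c4 (Q_v3 h.rot)
  have d3 : x3 ≠ .v3 := by rintro rfl; exact c1 (Q_v3 h.rot.rot)
  have d4 : x4 ≠ .v3 := by rintro rfl; exact c2 (Q_v3 h.rot.rot.rot)
  obtain ⟨h12, h23, h34, h41, h13, h24⟩ := h
  cases x1 <;> cases x2 <;> simp only [A, ne_eq, not_true_eq_false] at h12 c1 c2 d1 d2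
  · cases x3 <;> cases x4 <;> simp only [A, ne_eq, not_true_eq_false] at h23 h34 h41 c3 c4 d3 d4
    obtain ⟨rfl, i1⟩ := h12
    obtain ⟨rfl, i2⟩ := h23
    obtain ⟨rfl, i3⟩ := h34
    obtain ⟨-, i4⟩ := h41
    rcases girth hp i1 i4 i2 i3 with ⟨rfl, rfl⟩ | ⟨rfl, rfl⟩
    · exact h13 rfl
    · exact h24 rfl
  · cases x3 <;> cases x4 <;> simp only [A, ne_eq, not_true_eq_false] at h23 h34 h41 c3 c4 d3 d4
    obtain ⟨rfl, i1⟩ := h12
    obtain ⟨rfl, i2⟩ := h23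
    obtain ⟨rfl, i3⟩ := h34
    obtain ⟨-, i4⟩ := h41
    rcases girth hp i1 i2 i4 i3 with ⟨rfl, rfl⟩ | ⟨rfl, rfl⟩
    · exact h24 rfl
    · exact h13 rfl

end Q130.NM
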