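import Pool.Agent.Q130.NM.Defs

/-!
# The witness graphs (MP_1c393c)
-/

namespace Q130.NM

open SimpleGraph Finset

/-- The vertices of the witness: `v1`, `v3`, `t` leaves, and two copies (indexed by `Bool`) of
a bipartite graph of points and lines. -/
inductive Vx (t p : ℕ) : Type
  | v1 : Vx t p
  | v3 : Vx t p
  | leaf (j : Fin t) : Vx t p
  | pt (i : Bool) (x : Fin (t + 4)) (y : ZMod p) : Vx t p
  | ln (i : Bool) (m : Fin (t + 4)) (b : ZMod p) : Vx t p
  deriving DecidableEq

variable {t p : ℕ}

instance [NeZero p] : Finite (Vx t p) := by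
  have : Finite (ZMod p) := inferInstance
  let f : Vx t p → (Option (Option (Fin t))) ⊕ (Bool × Bool × Fin (t + 4) × ZMod p) := fun v =>
    match v with
    | .v1 => Sum.inl none
    | .v3 => Sum.inl (some none)
    | .leaf j => Sum.inl (some (some j))
    | .pt i x y => Sum.inr (false, i, x, y)
    | .ln i x y => Sum.inr (true, i, x, y)
  refine Finite.of_injective f ?_
  intro a b hab
  cases a <;> cases b <;> simp_all [f]

/-- Incidence of points and lines, without the two edges from the point `(0, 0)` to the lines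
`(0, 0)` and `(1, 0)`. -/
def inc (x : Fin (t + 4)) (y : ZMod p) (m : Fin (t + 4)) (b : ZMod p) : Prop :=
  y = ((m : ℕ) : ZMod p) * ((x : ℕ) : ZMod p) + b ∧ ¬ (x = 0 ∧ b = 0 ∧ (m = 0 ∨ m = 1))

/-- Adjacency in the witness. -/
def A : Vx t p → Vx t p → Prop
  | .v1, .leaf _ => True
  | .leaf _, .v1 => True
  | .v1, .pt _ x y => x = 0 ∧ y = 0
  | .pt _ x y, .v1 => x = 0 ∧ y = 0
  | .v1, .ln _ m b => m = 0 ∧ b = 0
  | .ln _ m b, .v1 => m = 0 ∧ b = 0
  | .v3, .pt _ x y => x = 0 ∧ y = 0
  | .pt _ x y, .v3 => x = 0 ∧ y = 0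
  | .v3, .ln _ m b => m = 1 ∧ b = 0
  | .ln _ m b, .v3 => m = 1 ∧ b = 0
  | .pt i x y, .ln j m b => i = j ∧ inc x y m b
  | .ln j m b, .pt i x y => i = j ∧ inc x y m b
  | _, _ => False

/-- The witness. -/
def wit (t p : ℕ) : SimpleGraph (Vx t p) where
  Adj := A
  symm := ⟨by
    intro a b h
    cases a <;> cases b <;> simp_all [A]⟩
  loopless := ⟨by
    intro a h
    cases a <;> simp_all [A]⟩

/-- The colour shift of a copy. -/
def sh (t : ℕ) (i : Bool) : Fin (t + 4) := if i then ⟨2, by omega⟩ else ⟨0, by omega⟩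

/-- The colouring with `t + 4` colours, on ordered pairs. -/
def col : Vx t p → Vx t p → Fin (t + 4)
  | .v1, .leaf j => ⟨j + 4, by omega⟩
  | .leaf j, .v1 => ⟨j + 4, by omega⟩
  | .v1, .pt i _ _ => sh t i + 1
  | .pt i _ _, .v1 => sh t i + 1
  | .v1, .ln i _ _ => sh t i
  | .ln i _ _, .v1 => sh t i
  | .v3, .pt i _ _ => sh t i
  | .pt i _ _, .v3 => sh t i
  | .v3, .ln i _ _ => sh t i + 1
  | .ln i _ _, .v3 => sh t i + 1
  | .pt i x _, .ln _ m _ => x + m + sh t i
  | .ln _ m _, .pt i x _ => x + m + sh t i
  | _, _ => 0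

lemma col_symm (a b : Vx t p) : col a b = col b a := by
  cases a <;> cases b <;> rfl

lemma val_one' : ((1 : Fin (t + 4)) : ℕ) = 1 := by
  show 1 % (t + 4) = 1
  exact Nat.mod_eq_of_lt (by omega)

lemma sh_val (i : Bool) : (sh t i : ℕ) = if i then 2 else 0 := by
  cases i <;> rfl

lemma sh1_val (i : Bool) : ((sh t i + 1 : Fin (t + 4)) : ℕ) = if i then 3 else 1 := by
  rw [Fin.val_add, val_one', sh_val]
  cases i
  · simp only [Bool.false_eq_true, if_false]; exact Nat.mod_eq_of_lt (by omega)
  · simp only [if_true]; exact Nat.mod_eq_of_lt (by omega)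

variable [Fact p.Prime]

lemma cast_inj (hp : t + 4 ≤ p) {x x' : Fin (t + 4)}
    (h : ((x : ℕ) : ZMod p) = ((x' : ℕ) : ZMod p)) : x = x' := by
  have := (ZMod.natCast_eq_natCast_iff' _ _ _).1 h
  rw [Nat.mod_eq_of_lt (by omega), Nat.mod_eq_of_lt (by omega)] at this
  exact Fin.ext this

lemma cast_zero' : (((0 : Fin (t + 4)) : ℕ) : ZMod p) = 0 := by simp

lemma cast_one' : (((1 : Fin (t + 4)) : ℕ) : ZMod p) = 1 := by rw [val_one']; simp

/-- The colouring is proper. -/
lemma col_proper (u w w' : Vx t p) (h : A u w) (h' : A u w') (hne : w ≠ w') :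
    col u w ≠ col u w' := by
  intro hc
  cases u with
  | v1 =>
    cases w <;> cases w' <;>
      simp only [A, col, Fin.ext_iff, sh_val, sh1_val] at h h' hc hne
    case leaf.leaf a b => exact hne (by congr 1; exact Fin.ext (by omega))
    case leaf.pt => split_ifs at hc <;> omega
    case leaf.ln => split_ifs at hc <;> omega
    case pt.leaf => split_ifs at hc <;> omega
    case ln.leaf => split_ifs at hc <;> omega
    case pt.pt i x y j x' y' =>
      apply hne
      have : i = j := by cases i <;> cases j <;> simp_all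
      rw [this, show x = x' from Fin.ext (h.1.trans h'.1.symm), h.2, h'.2]
    case pt.ln i x y j x' y' => cases i <;> cases j <;> simp_all
    case ln.pt i x y j x' y' => cases i <;> cases j <;> simp_all
    case ln.ln i x y j x' y' =>
      apply hne
      have : i = j := by cases i <;> cases j <;> simp_all
      rw [this, show x = x' from Fin.ext (h.1.trans h'.1.symm), h.2, h'.2]
  | v3 =>
    cases w <;> cases w' <;>
      simp only [A, col, Fin.ext_iff, sh_val, sh1_val] at h h' hc hne
    case pt.pt i x y j x' y' =>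
      apply hne
      have : i = j := by cases i <;> cases j <;> simp_all
      rw [this, show x = x' from Fin.ext (h.1.trans h'.1.symm), h.2, h'.2]
    case pt.ln i x y j x' y' => cases i <;> cases j <;> simp_all
    case ln.pt i x y j x' y' => cases i <;> cases j <;> simp_all
    case ln.ln i x y j x' y' =>
      apply hne
      have : i = j := by cases i <;> cases j <;> simp_all
      rw [this, show x = x' from Fin.ext (h.1.trans h'.1.symm), h.2, h'.2]
  | leaf j =>
    cases w <;> cases w' <;> simp_all [A]
  | pt i x y =>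
    cases w <;> cases w' <;> simp only [A, col] at h h' hc hne
    case v1.v1 => exact hne rfl
    case v3.v3 => exact hne rfl
    case v1.v3 =>
      have := congrArg Fin.val hc
      rw [sh1_val, sh_val] at this; cases i <;> simp_all
    case v3.v1 =>
      have := congrArg Fin.val hc
      rw [sh1_val, sh_val] at this; cases i <;> simp_all
    case v1.ln j m b =>
      obtain ⟨rfl, hb, hn⟩ := h'
      obtain ⟨rfl, rfl⟩ := h
      rw [zero_add, add_comm (sh t i) 1] at hc
      have hm : m = 1 := (add_right_cancel hc).symm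
      apply hn
      refine ⟨rfl, ?_, Or.inr hm⟩
      rw [cast_zero', mul_zero, zero_add] at hb
      exact hb.symm
    case v3.ln j m b =>
      obtain ⟨rfl, hb, hn⟩ := h'
      obtain ⟨rfl, rfl⟩ := h
      rw [zero_add] at hc
      have hm : m = 0 := by
        have : (0 : Fin (t + 4)) + sh t i = m + sh t i := by rw [zero_add]; exact hc
        exact (add_right_cancel this).symm
      apply hn
      refine ⟨rfl, ?_, Or.inl hm⟩
      rw [cast_zero', mul_zero, zero_add] at hb
      exact hb.symm
    case ln.v1 j m b =>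
      obtain ⟨rfl, hb, hn⟩ := h
      obtain ⟨rfl, rfl⟩ := h'
      rw [zero_add, add_comm (sh t i) 1] at hc
      have hm : m = 1 := add_right_cancel hc
      apply hn
      refine ⟨rfl, ?_, Or.inr hm⟩
      rw [cast_zero', mul_zero, zero_add] at hb
      exact hb.symm
    case ln.v3 j m b =>
      obtain ⟨rfl, hb, hn⟩ := h
      obtain ⟨rfl, rfl⟩ := h'
      rw [zero_add] at hc
      have hm : m = 0 := by
        have : m + sh t i = (0 : Fin (t + 4)) + sh t i := by rw [zero_add]; exact hc
        exact add_right_cancel this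
      apply hn
      refine ⟨rfl, ?_, Or.inl hm⟩
      rw [cast_zero', mul_zero, zero_add] at hb
      exact hb.symm
    case ln.ln j m b j' m' b' =>
      obtain ⟨rfl, hb, hn⟩ := h
      obtain ⟨rfl, hb', hn'⟩ := h'
      have hm : m = m' := add_left_cancel (add_right_cancel hc)
      subst hm
      apply hne
      rw [show b = b' from add_left_cancel (hb.symm.trans hb')]
  | ln i m b =>
    cases w <;> cases w' <;> simp only [A, col] at h h' hc hne
    case v1.v1 => exact hne rfl
    case v3.v3 => exact hne rfl
    case v1.v3 =>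
      have := congrArg Fin.val hc
      rw [sh1_val, sh_val] at this; cases i <;> simp_all
    case v3.v1 =>
      have := congrArg Fin.val hc
      rw [sh1_val, sh_val] at this; cases i <;> simp_all
    case v1.pt j x y =>
      obtain ⟨rfl, hb, hn⟩ := h'
      obtain ⟨rfl, rfl⟩ := h
      rw [add_zero] at hc
      have hm : x = 0 := by
        have : (0 : Fin (t + 4)) + sh t j = x + sh t j := by rw [zero_add]; exact hc
        exact (add_right_cancel this).symm
      exact hn ⟨hm, rfl, Or.inl rfl⟩
    case v3.pt j x y =>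
      obtain ⟨rfl, hb, hn⟩ := h'
      obtain ⟨rfl, rfl⟩ := h
      have hm : x = 0 := by
        have : (0 : Fin (t + 4)) + (1 + sh t j) = x + (1 + sh t j) := by
          rw [zero_add, ← add_assoc, ← hc, add_comm (sh t j) 1]
        exact (add_right_cancel this).symm
      exact hn ⟨hm, rfl, Or.inr rfl⟩
    case pt.v1 j x y =>
      obtain ⟨rfl, hb, hn⟩ := h
      obtain ⟨rfl, rfl⟩ := h'
      rw [add_zero] at hc
      have hm : x = 0 := by
        have : (0 : Fin (t + 4)) + sh t j = x + sh t j := by rw [zero_add]; exact hc.symm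
        exact (add_right_cancel this).symm
      exact hn ⟨hm, rfl, Or.inl rfl⟩
    case pt.v3 j x y =>
      obtain ⟨rfl, hb, hn⟩ := h
      obtain ⟨rfl, rfl⟩ := h'
      have hm : x = 0 := by
        have : (0 : Fin (t + 4)) + (1 + sh t j) = x + (1 + sh t j) := by
          rw [zero_add, ← add_assoc, hc, add_comm (sh t j) 1]
        exact (add_right_cancel this).symm
      exact hn ⟨hm, rfl, Or.inr rfl⟩
    case pt.pt j x y j' x' y' =>
      obtain ⟨rfl, hb, hn⟩ := h
      obtain ⟨rfl, hb', hn'⟩ := h'
      have hm : x = x' := add_right_cancel (add_right_cancel hc)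
      subst hm
      apply hne
      rw [hb, hb']

end Q130.NM
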